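import Mathlib

/-!
# Sets of small measure in dyadic intervals do not contain `t ^ κ_n`
-/

set_option autoImplicit false

open Finset Filter Topology MeasureTheory

namespace Pool.Agent.X16.ZP

open scoped ENNReal NNReal

/-- the map `x ↦ x ^ (1 / κ)` shrinks -/
theorem vol_pow_le (B : Set ℝ) (κ X β : ℝ) (hκ : 1 ≤ κ) (hX : 1 ≤ X) :
    volume {t : ℝ | 1 < t ∧ t ≤ β ∧ t ^ κ ∈ B ∩ Set.Icc X (2 * X)} ≤
      ENNReal.ofReal (β / (κ * X)) * volume (B ∩ Set.Icc X (2 * X)) := by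
  have hκ0 : 0 < κ := by linarith
  have hX0 : 0 < X := by linarith
  rcases Set.eq_empty_or_nonempty {t : ℝ | 1 < t ∧ t ≤ β ∧ t ^ κ ∈ B ∩ Set.Icc X (2 * X)} with h | h
  · rw [h, measure_empty]
    exact zero_le
  · obtain ⟨t0, ht1, ht2, _, ht3⟩ := h
    have hXβ : X ^ (1 / κ) ≤ β := by
      calc X ^ (1 / κ) ≤ (t0 ^ κ) ^ (1 / κ) :=
            Real.rpow_le_rpow hX0.le ht3.1 (by positivity)
        _ = t0 := by
            rw [← Real.rpow_mul (by linarith), mul_one_div_cancel hκ0.ne', Real.rpow_one]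
        _ ≤ β := ht2
    have hβ : 0 < β := by linarith
    have hp1 : 1 / κ ≤ 1 := by
      rw [div_le_one hκ0]
      exact hκ
    have hlip : LipschitzOnWith (Real.toNNReal (β / (κ * X))) (fun x : ℝ => x ^ (1 / κ))
        (Set.Icc X (2 * X)) := by
      refine Convex.lipschitzOnWith_of_nnnorm_deriv_le (fun x hx => ?_) (fun x hx => ?_)
        (convex_Icc _ _)
      · exact Real.differentiableAt_rpow_const_of_ne _ (by linarith [hx.1])
      · have hx0 : 0 < x := by linarith [hx.1]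
        rw [Real.deriv_rpow_const]
        rw [← NNReal.coe_le_coe, coe_nnnorm, Real.coe_toNNReal _ (by positivity),
          Real.norm_of_nonneg (by positivity)]
        have h1 : x ^ (1 / κ - 1) ≤ X ^ (1 / κ - 1) :=
          Real.rpow_le_rpow_of_nonpos hX0 hx.1 (by linarith)
        have h2 : X ^ (1 / κ - 1) = X ^ (1 / κ) / X := by
          rw [Real.rpow_sub hX0, Real.rpow_one]
        calc 1 / κ * x ^ (1 / κ - 1) ≤ 1 / κ * (X ^ (1 / κ) / X) := by
              rw [← h2]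
              exact mul_le_mul_of_nonneg_left h1 (by positivity)
          _ ≤ 1 / κ * (β / X) := by gcongr
          _ = β / (κ * X) := by
              field_simp
    have hsub : {t : ℝ | 1 < t ∧ t ≤ β ∧ t ^ κ ∈ B ∩ Set.Icc X (2 * X)} ⊆
        (fun x : ℝ => x ^ (1 / κ)) '' (B ∩ Set.Icc X (2 * X)) := by
      rintro t ⟨h1, h2, h3⟩
      refine ⟨t ^ κ, h3, ?_⟩
      show (t ^ κ) ^ (1 / κ) = t
      rw [← Real.rpow_mul (by linarith), mul_one_div_cancel hκ0.ne', Real.rpow_one]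
    have h3 := (hlip.mono (Set.inter_subset_right (s := B))).hausdorffMeasure_image_le
      (d := 1) zero_le_one
    rw [hausdorffMeasure_real, ENNReal.rpow_one] at h3
    exact (measure_mono hsub).trans h3

/-- all dyadic intervals -/
theorem vol_union_le (B : Set ℝ) (κ α β v : ℝ) (hκ : 1 ≤ κ) (hα : 1 < α) (hαβ : α ≤ β)
    (hv : 0 ≤ v) (h : ∀ X : ℝ, α ^ κ ≤ X → volume (B ∩ Set.Icc X (2 * X)) ≤ ENNReal.ofReal (X * v)) :
    volume {t : ℝ | α ≤ t ∧ t ≤ β ∧ t ^ κ ∈ B} ≤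
      ENNReal.ofReal ((Real.log β / Real.log 2 + 1) * β * v) := by
  have hκ0 : 0 < κ := by linarith
  have hα0 : 0 < α := by linarith
  have hβ0 : 0 < β := by linarith
  have hl2 : 0 < Real.log 2 := Real.log_pos (by norm_num)
  have hlα : 0 < Real.log α := Real.log_pos hα
  have hlβ : 0 < Real.log β := Real.log_pos (by linarith)
  have hακ : 1 ≤ α ^ κ := Real.one_le_rpow hα.le hκ0.le
  set M : ℕ := ⌊κ * (Real.log β / Real.log 2)⌋₊ with hM
  have hsub : {t : ℝ | α ≤ t ∧ t ≤ β ∧ t ^ κ ∈ B} ⊆ ⋃ m ∈ Finset.range (M + 1),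
      {t : ℝ | 1 < t ∧ t ≤ β ∧ t ^ κ ∈ B ∩ Set.Icc (α ^ κ * 2 ^ m) (2 * (α ^ κ * 2 ^ m))} := by
    rintro t ⟨h1, h2, h3⟩
    have ht0 : 0 < t := by linarith
    have h4 : α ^ κ ≤ t ^ κ := Real.rpow_le_rpow hα0.le h1 hκ0.le
    have h5 : 1 ≤ t ^ κ / α ^ κ := by
      rw [one_le_div (by positivity)]
      exact h4
    obtain ⟨m, hm1, hm2⟩ := exists_nat_pow_near h5 (by norm_num : (1 : ℝ) < 2)
    rw [le_div_iff₀ (by positivity)] at hm1
    rw [div_lt_iff₀ (by positivity), pow_succ] at hm2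
    have hmM : m < M + 1 := by
      have e1 : (m : ℝ) * Real.log 2 ≤ κ * Real.log β := by
        have e2 : Real.log (2 ^ m) ≤ Real.log (t ^ κ) := by
          apply Real.log_le_log (by positivity)
          nlinarith [show (0 : ℝ) < 2 ^ m by positivity]
        rw [Real.log_pow, Real.log_rpow ht0] at e2
        have e3 : Real.log t ≤ Real.log β := Real.log_le_log ht0 h2
        nlinarith
      have e2 : (m : ℝ) ≤ κ * (Real.log β / Real.log 2) := by
        rw [mul_div_assoc', le_div_iff₀ hl2]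
        exact e1
      have := Nat.le_floor e2
      omega
    simp only [Set.mem_iUnion]
    exact ⟨m, Finset.mem_range.2 hmM, by linarith, h2, h3, by linarith, by linarith⟩
  refine (measure_mono hsub).trans ((measure_biUnion_finset_le _ _).trans ?_)
  have hterm : ∀ m ∈ Finset.range (M + 1),
      volume {t : ℝ | 1 < t ∧ t ≤ β ∧ t ^ κ ∈ B ∩ Set.Icc (α ^ κ * 2 ^ m) (2 * (α ^ κ * 2 ^ m))} ≤
        ENNReal.ofReal (β / κ * v) := by
    intro m _
    set X : ℝ := α ^ κ * 2 ^ m with hX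
    have h2m : (1 : ℝ) ≤ 2 ^ m := one_le_pow₀ (by norm_num)
    have hXα : α ^ κ ≤ X := by
      rw [hX]
      nlinarith
    have hX1 : 1 ≤ X := by linarith
    refine (vol_pow_le B κ X β hκ hX1).trans ?_
    calc ENNReal.ofReal (β / (κ * X)) * volume (B ∩ Set.Icc X (2 * X)) ≤
          ENNReal.ofReal (β / (κ * X)) * ENNReal.ofReal (X * v) := by
          gcongr
          exact h X hXα
      _ = ENNReal.ofReal (β / κ * v) := by
          rw [← ENNReal.ofReal_mul (by positivity)]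
          congr 1
          field_simp
  refine (Finset.sum_le_sum hterm).trans ?_
  rw [Finset.sum_const, Finset.card_range, nsmul_eq_mul, ← ENNReal.ofReal_natCast,
    ← ENNReal.ofReal_mul (Nat.cast_nonneg _)]
  apply ENNReal.ofReal_le_ofReal
  have h1 : (M : ℝ) ≤ κ * (Real.log β / Real.log 2) := Nat.floor_le (by positivity)
  push_cast
  have h2 : ((M : ℝ) + 1) ≤ κ * (Real.log β / Real.log 2 + 1) := by nlinarith
  calc ((M : ℝ) + 1) * (β / κ * v) ≤ κ * (Real.log β / Real.log 2 + 1) * (β / κ * v) :=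
        mul_le_mul_of_nonneg_right h2 (by positivity)
    _ = (Real.log β / Real.log 2 + 1) * β * v := by
        field_simp

/-- **Theorem.** If the measure of `B_n ∩ [X, 2X]` is at most `X v_n` for `X ≥ α ^ κ_n`, with `∑ v_n < ∞` (for each
`α > 1` for some such `v`), then for almost all `t > 1` the number `t ^ κ_n` is not in `B_n` for all large `n`. -/
theorem ae_notMem (B : ℕ → Set ℝ) (κ : ℕ → ℝ) (hκ : ∀ᶠ n : ℕ in atTop, 1 ≤ κ n)
    (h : ∀ α : ℝ, 1 < α → ∃ v : ℕ → ℝ, (∀ n, 0 ≤ v n) ∧ Summable v ∧ ∀ᶠ n : ℕ in atTop,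
      ∀ X : ℝ, α ^ κ n ≤ X → volume (B n ∩ Set.Icc X (2 * X)) ≤ ENNReal.ofReal (X * v n)) :
    ∀ᵐ t : ℝ, 1 < t → ∃ n₀ : ℕ, ∀ n : ℕ, n₀ ≤ n → t ^ κ n ∉ B n := by
  have key : ∀ k : ℕ, ∀ᵐ t : ℝ, 1 + 1 / ((k : ℝ) + 1) ≤ t → t ≤ (k : ℝ) + 2 →
      ∃ n₀ : ℕ, ∀ n : ℕ, n₀ ≤ n → t ^ κ n ∉ B n := by
    intro k
    set α : ℝ := 1 + 1 / ((k : ℝ) + 1) with hα
    set β : ℝ := (k : ℝ) + 2 with hβ
    have hk : (0 : ℝ) ≤ k := Nat.cast_nonneg k
    have hα1 : 1 < α := by
      rw [hα]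
      have : 0 < 1 / ((k : ℝ) + 1) := by positivity
      linarith
    have hαβ : α ≤ β := by
      rw [hα, hβ]
      have : 1 / ((k : ℝ) + 1) ≤ 1 := by
        rw [div_le_one (by positivity)]
        linarith
      linarith
    obtain ⟨v, hv0, hv, hev⟩ := h α hα1
    obtain ⟨N, hN⟩ := eventually_atTop.1 (hκ.and hev)
    set c : ℝ := (Real.log β / Real.log 2 + 1) * β with hc
    have hc0 : 0 ≤ c := by
      have h1 : 0 ≤ Real.log β := Real.log_nonneg (by linarith)
      have h2 : 0 < Real.log 2 := Real.log_pos (by norm_num)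
      have h3 : 0 ≤ β := by linarith
      positivity
    set s : ℕ → Set ℝ := fun n => {t : ℝ | N ≤ n ∧ α ≤ t ∧ t ≤ β ∧ t ^ κ n ∈ B n} with hs
    have hsn : ∀ n, volume (s n) ≤ ENNReal.ofReal (c * v n) := by
      intro n
      by_cases hn : N ≤ n
      · refine le_trans (measure_mono ?_) (vol_union_le (B n) (κ n) α β (v n) (hN n hn).1 hα1 hαβ
          (hv0 n) (hN n hn).2)
        rintro t ⟨_, h2⟩
        exact h2
      · have : s n = ∅ := by
          ext t
          simp only [hs, Set.mem_setOf_eq, Set.mem_empty_iff_false, iff_false]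
          exact fun hcon => hn hcon.1
        rw [this, measure_empty]
        exact zero_le
    have hsum : ∑' n, volume (s n) ≠ ∞ := by
      refine ne_top_of_le_ne_top ?_ (ENNReal.tsum_le_tsum hsn)
      exact (hv.mul_left c).tsum_ofReal_ne_top
    filter_upwards [ae_eventually_notMem hsum] with t ht h1 h2
    obtain ⟨n₁, hn₁⟩ := eventually_atTop.1 ht
    refine ⟨max N n₁, fun n hn hcon => ?_⟩
    exact hn₁ n ((le_max_right _ _).trans hn) ⟨(le_max_left _ _).trans hn, h1, h2, hcon⟩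
  filter_upwards [ae_all_iff.2 key] with t ht ht1
  obtain ⟨k1, hk1⟩ := exists_nat_one_div_lt (sub_pos.2 ht1)
  obtain ⟨k2, hk2⟩ := exists_nat_ge t
  refine ht (max k1 k2) ?_ ?_
  · have h1 : 1 / (((max k1 k2 : ℕ) : ℝ) + 1) ≤ 1 / ((k1 : ℝ) + 1) := by
      apply one_div_le_one_div_of_le (by positivity)
      have : (k1 : ℝ) ≤ ((max k1 k2 : ℕ) : ℝ) := by exact_mod_cast le_max_left _ _
      linarith
    linarith
  · have : (k2 : ℝ) ≤ ((max k1 k2 : ℕ) : ℝ) := by exact_mod_cast le_max_right _ _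
    linarith

end Pool.Agent.X16.ZP
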