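import Pool.Agent.X16.ZP.A

/-!
# From almost all short intervals to all short intervals near `t ^ κ_n`: interval functions
-/

set_option autoImplicit false

open Finset Filter Topology MeasureTheory

namespace Pool.Agent.X16.ZP

open scoped ENNReal NNReal
open Pool.Agent.X16.NW (AlongFamilies AlongPowers)

/-- the interval function `N` is asymptotic to `H log T / 2π` in `(T, T + H]` -/
def Cnt (N : ℝ → ℝ → ℝ) : Prop :=
  ∃ C : ℝ, 0 < C ∧ ∀ T : ℝ, 10 ≤ T → ∀ H : ℝ, 3 ≤ H → H ≤ T →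
    |N T (T + H) - H * Real.log T / (2 * Real.pi)| ≤ C * (H + (Real.log T) ^ 2)

/-- the interval function `G` is increasing, and `K N - G` is increasing -/
structure Lip (N G : ℝ → ℝ → ℝ) (K : ℝ) : Prop where
  mono : ∀ a b a' b' : ℝ, 1 ≤ a' → a' ≤ a → a ≤ b → b ≤ b' → G a b ≤ G a' b'
  lip : ∀ a b a' b' : ℝ, 1 ≤ a' → a' ≤ a → a ≤ b → b ≤ b' →
    G a' b' ≤ G a b + K * (N a' b' - N a b)

/-- the inequality for `(t, t + H]` -/
def Ok (N G1 G2 : ℝ → ℝ → ℝ) (A t H : ℝ) : Prop := A * N t (t + H) + G1 t (t + H) ≤ G2 t (t + H)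

lemma ev_facts (C μ η θ η0 : ℝ) (hμ : 0 < μ) (hη : 0 < η) (hθ : θ < η) (h0 : 0 ≤ η0)
    (h01 : η0 < η) (hη1 : η < 1) : ∀ᶠ x : ℝ in atTop, 1000 ≤ x ∧ 12 * (C + 1) / μ ≤ Real.log x ∧
      24 * C / μ * Real.log x ≤ x ^ η ∧ x ^ θ + 2 ≤ μ / 4 * x ^ η ∧ (x + 1) ^ η0 ≤ x ^ η / 2 ∧
      100 * (C + 1) ≤ Real.log x ∧ 400 * C * Real.log x ≤ x ^ η ∧ 4 ≤ x ^ η := by
  have e1 : ∀ᶠ x : ℝ in atTop, 1000 ≤ x := eventually_ge_atTop _
  have e2 : ∀ c : ℝ, ∀ᶠ x : ℝ in atTop, c ≤ Real.log x := fun c =>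
    Real.tendsto_log_atTop.eventually (eventually_ge_atTop c)
  have e3 : ∀ c : ℝ, ∀ᶠ x : ℝ in atTop, c * Real.log x ≤ x ^ η := by
    intro c
    have h1 := (isLittleO_log_rpow_atTop hη).def (show 0 < 1 / (|c| + 1) by positivity)
    filter_upwards [h1, eventually_ge_atTop 1] with x hx hx1
    have hl : 0 ≤ Real.log x := Real.log_nonneg hx1
    have hp : 0 ≤ x ^ η := by positivity
    rw [Real.norm_eq_abs, Real.norm_eq_abs, abs_of_nonneg hl, abs_of_nonneg hp] at hx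
    have h2 : (|c| + 1) * Real.log x ≤ x ^ η := by
      calc (|c| + 1) * Real.log x ≤ (|c| + 1) * (1 / (|c| + 1) * x ^ η) :=
            mul_le_mul_of_nonneg_left hx (by positivity)
        _ = x ^ η := by
            field_simp
    have h3 : c ≤ |c| + 1 := by linarith [le_abs_self c]
    exact (mul_le_mul_of_nonneg_right h3 hl).trans h2
  have e4 : ∀ c : ℝ, ∀ᶠ x : ℝ in atTop, c ≤ x ^ η := fun c =>
    (tendsto_rpow_atTop hη).eventually (eventually_ge_atTop c)
  have e5 : ∀ b c : ℝ, b < η → 0 < c → ∀ᶠ x : ℝ in atTop, x ^ b ≤ c * x ^ η := by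
    intro b c hb hc
    have h1 : Tendsto (fun x : ℝ => x ^ (-(η - b))) atTop (𝓝 0) :=
      tendsto_rpow_neg_atTop (by linarith)
    filter_upwards [h1.eventually (gt_mem_nhds hc), eventually_gt_atTop 0] with x hx hx0
    calc x ^ b = x ^ (-(η - b)) * x ^ η := by
          rw [← Real.rpow_add hx0]
          congr 1
          ring
      _ ≤ c * x ^ η := mul_le_mul_of_nonneg_right hx.le (by positivity)
  filter_upwards [e1, e2 (12 * (C + 1) / μ), e3 (24 * C / μ), e5 θ (μ / 8) hθ (by positivity),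
    e4 (16 / μ), e5 η0 (1 / 4) h01 (by norm_num), e2 (100 * (C + 1)), e3 (400 * C), e4 4]
    with x h1 h2 h3 h4 h5 h6 h7 h8 h9
  refine ⟨h1, h2, h3, ?_, ?_, h7, h8, h9⟩
  · rw [div_le_iff₀ hμ] at h5
    nlinarith
  · have h10 : (x + 1) ^ η0 ≤ (2 * x) ^ η0 := Real.rpow_le_rpow (by linarith) (by linarith) h0
    have h11 : (2 * x) ^ η0 = (2 : ℝ) ^ η0 * x ^ η0 := Real.mul_rpow (by norm_num) (by linarith)
    have h12 : (2 : ℝ) ^ η0 ≤ 2 := by
      calc (2 : ℝ) ^ η0 ≤ (2 : ℝ) ^ (1 : ℝ) :=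
            Real.rpow_le_rpow_of_exponent_le (by norm_num) (by linarith)
        _ = 2 := Real.rpow_one 2
    have h13 : 0 ≤ x ^ η0 := by positivity
    rw [h11] at h10
    nlinarith

lemma log_two_x {x : ℝ} (hx : 1000 ≤ x) : Real.log (2 * x) ≤ 2 * Real.log x := by
  have : Real.log (2 * x) ≤ Real.log (x ^ 2) := Real.log_le_log (by linarith) (by nlinarith)
  rwa [Real.log_pow] at this

/-- nested intervals of nearly the same length -/
lemma diff_le {N : ℝ → ℝ → ℝ} {C : ℝ} (hC : 0 < C) (hN : ∀ T : ℝ, 10 ≤ T → ∀ H : ℝ, 3 ≤ H → H ≤ T →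
    |N T (T + H) - H * Real.log T / (2 * Real.pi)| ≤ C * (H + (Real.log T) ^ 2))
    {μ η x H : ℝ} (hμ : 0 < μ) (hx : 1000 ≤ x) (h1 : 12 * (C + 1) / μ ≤ Real.log x)
    (h2 : 24 * C / μ * Real.log x ≤ x ^ η) (hH : x ^ η ≤ H) (hHx : H ≤ x / 20)
    {a b c d : ℝ} (hac : a ≤ c) (hdb : d ≤ b) (ha : x / 2 ≤ a) (hc2 : c ≤ 2 * x)
    (hcd : 3 ≤ d - c) (hba : b - a ≤ 2 * H) (hm : (b - a) - (d - c) ≤ μ * H) :
    N a b - N c d ≤ μ * (H * Real.log x) := by
  have hpi := Real.pi_gt_three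
  have hcd' : d - c ≤ b - a := by linarith
  have k1 := hN a (by linarith) (b - a) (by linarith) (by linarith)
  have k2 := hN c (by linarith) (d - c) hcd (by linarith)
  rw [add_sub_cancel] at k1 k2
  have l1 := (abs_le.1 k1).2
  have l2 := (abs_le.1 k2).1
  have hL1 : 0 < Real.log x := Real.log_pos (by linarith)
  have ha1 : 0 ≤ Real.log a := Real.log_nonneg (by linarith)
  have hla : Real.log a ≤ 2 * Real.log x :=
    (Real.log_le_log (by linarith) (by linarith)).trans (log_two_x hx)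
  have hlc : Real.log c ≤ 2 * Real.log x :=
    (Real.log_le_log (by linarith) (by linarith)).trans (log_two_x hx)
  have hlac : Real.log a ≤ Real.log c := Real.log_le_log (by linarith) hac
  have hsa : (Real.log a) ^ 2 ≤ 4 * (Real.log x) ^ 2 := by nlinarith
  have hsc : (Real.log c) ^ 2 ≤ 4 * (Real.log x) ^ 2 := by nlinarith [ha1.trans hlac]
  have hH0 : 0 < H := by linarith
  -- the main terms
  have m1 : (b - a) * Real.log a / (2 * Real.pi) - (d - c) * Real.log c / (2 * Real.pi) ≤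
      μ / 3 * (H * Real.log x) := by
    have e1 : (d - c) * Real.log a ≤ (d - c) * Real.log c :=
      mul_le_mul_of_nonneg_left hlac (by linarith)
    have e2 : (b - a) * Real.log a - (d - c) * Real.log c ≤ μ * H * (2 * Real.log x) := by
      calc (b - a) * Real.log a - (d - c) * Real.log c ≤
            ((b - a) - (d - c)) * Real.log a := by linarith
        _ ≤ μ * H * Real.log a := mul_le_mul_of_nonneg_right hm ha1
        _ ≤ μ * H * (2 * Real.log x) := mul_le_mul_of_nonneg_left hla (by positivity)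
    rw [← sub_div, div_le_iff₀ (by positivity)]
    have e3 : 0 < μ * (H * Real.log x) := by positivity
    nlinarith
  have m2 : 4 * C * H ≤ μ / 3 * (H * Real.log x) := by
    rw [div_le_iff₀ hμ] at h1
    have : 12 * C ≤ Real.log x * μ := by linarith
    nlinarith
  have m3 : 8 * C * (Real.log x) ^ 2 ≤ μ / 3 * (H * Real.log x) := by
    have e1 : 24 * C / μ * Real.log x ≤ H := h2.trans hH
    have e2 : 24 * C * Real.log x ≤ H * μ := by
      calc 24 * C * Real.log x = 24 * C / μ * Real.log x * μ := by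
            field_simp
        _ ≤ H * μ := mul_le_mul_of_nonneg_right e1 hμ.le
    nlinarith
  nlinarith

lemma low_le {N : ℝ → ℝ → ℝ} {C : ℝ} (hC : 0 < C) (hN : ∀ T : ℝ, 10 ≤ T → ∀ H : ℝ, 3 ≤ H → H ≤ T →
    |N T (T + H) - H * Real.log T / (2 * Real.pi)| ≤ C * (H + (Real.log T) ^ 2))
    {η x H : ℝ} (hx : 1000 ≤ x) (h1 : 100 * (C + 1) ≤ Real.log x)
    (h2 : 400 * C * Real.log x ≤ x ^ η) (h3 : 4 ≤ x ^ η) (hH : x ^ η ≤ H) (hHx : H ≤ x / 20)
    {u : ℝ} (hu : x / 2 ≤ u) (hu2 : u ≤ 2 * x) : H * Real.log x / 8 ≤ N u (u + H) := by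
  have hpi := Real.pi_gt_three
  have hpi2 := Real.pi_lt_d2
  have k1 := (abs_le.1 (hN u (by linarith) H (by linarith) (by linarith))).1
  have hL1 : 0 < Real.log x := Real.log_pos (by linarith)
  have hlu : Real.log x - 1 ≤ Real.log u := by
    have e1 : Real.log x - Real.log 2 ≤ Real.log u := by
      rw [← Real.log_div (by linarith) (by norm_num)]
      exact Real.log_le_log (by linarith) hu
    linarith [Real.log_two_lt_d9]
  have hlu2 : Real.log u ≤ 2 * Real.log x :=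
    (Real.log_le_log (by linarith) (by linarith)).trans (log_two_x hx)
  have hlu0 : 0 ≤ Real.log u := Real.log_nonneg (by linarith)
  have hsu : (Real.log u) ^ 2 ≤ 4 * (Real.log x) ^ 2 := by nlinarith
  have hH0 : 0 < H := by linarith
  have m1 : (0.158 : ℝ) * (H * (Real.log x - 1)) ≤ H * Real.log u / (2 * Real.pi) := by
    rw [le_div_iff₀ (by positivity)]
    have e1 : H * (Real.log x - 1) ≤ H * Real.log u := mul_le_mul_of_nonneg_left hlu hH0.le
    have e2 : 0 ≤ H * (Real.log x - 1) := by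
      have : 1 ≤ Real.log x := by linarith
      exact mul_nonneg hH0.le (by linarith)
    nlinarith
  have m2 : (C + 1) * H ≤ H * Real.log x / 100 := by nlinarith
  have m3 : 4 * C * (Real.log x) ^ 2 ≤ H * Real.log x / 100 := by
    have e1 : 400 * C * Real.log x ≤ H := h2.trans hH
    nlinarith
  nlinarith

lemma fin_ineq {A ε K μ L NI NJ NK G1I G1J G1K G2I G2J G2K : ℝ} (hε : 0 < ε) (hK : 0 ≤ K)
    (D1 : NK - NJ ≤ μ * L) (D2 : NK - NI ≤ μ * L) (D1' : 0 ≤ NK - NJ) (D2' : 0 ≤ NK - NI)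
    (hlow : L / 8 ≤ NI) (hμK : μ * (32 * (K + |A| + ε)) = ε)
    (hok : (A - ε / 2) * NJ + G1J ≤ G2J) (g1 : G1I ≤ G1K) (g2 : G1K ≤ G1J + K * (NK - NJ))
    (g3 : G2J ≤ G2K) (g4 : G2K ≤ G2I + K * (NK - NI)) : (A - ε) * NI + G1I ≤ G2I := by
  have q1 : (A - ε / 2) * (NI - NJ) ≤ (|A| + ε) * (2 * (μ * L)) := by
    have e1 : |NI - NJ| ≤ 2 * (μ * L) := by
      rw [abs_le]
      constructor <;> linarith
    have e2 : |A - ε / 2| ≤ |A| + ε := by
      rw [abs_le]
      constructor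
      · linarith [neg_abs_le A]
      · linarith [le_abs_self A]
    calc (A - ε / 2) * (NI - NJ) ≤ |(A - ε / 2) * (NI - NJ)| := le_abs_self _
      _ = |A - ε / 2| * |NI - NJ| := abs_mul _ _
      _ ≤ (|A| + ε) * (2 * (μ * L)) := by
          apply mul_le_mul e2 e1 (abs_nonneg _)
          have := abs_nonneg A
          linarith
  have q2 : K * (NK - NJ) + K * (NK - NI) ≤ K * (2 * (μ * L)) := by
    rw [← mul_add]
    exact mul_le_mul_of_nonneg_left (by linarith) hK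
  have q3 : (K + (|A| + ε)) * (2 * (μ * L)) = ε * L / 16 := by
    have : (K + (|A| + ε)) * (2 * (μ * L)) = μ * (32 * (K + |A| + ε)) * L / 16 := by ring
    rw [this, hμK]
  have q4 : ε * L / 16 ≤ ε / 2 * NI := by
    have := mul_le_mul_of_nonneg_left hlow (show 0 ≤ ε / 2 by positivity)
    linarith
  linarith

/-- **Theorem.** Let `N` be a count and `G1`, `G2` be Lipschitz with respect to it. Suppose that for every
`ε > 0` the inequality `(A - ε) N + G1 ≤ G2` holds in almost all intervals `(t, t + H]`, `T ^ η₀ ≤ H ≤ T / 8`, with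
a power saving. Then for `η₀ < η < 1`, `θ < η` and `ε > 0` it holds in ALL intervals `(u, u + H]` with
`|u - x| ≤ x ^ θ`, `x ^ η ≤ H ≤ x / 20`, for `x = f_n(t)`, all large `n` and all `t` outside a set of dimension `< 1`. -/
theorem along {N G1 G2 : ℝ → ℝ → ℝ} {K : ℝ} (hK : 0 ≤ K) (hN : Cnt N) (h1 : Lip N G1 K)
    (h2 : Lip N G2 K) (hNm : ∀ a b a' b' : ℝ, 1 ≤ a' → a' ≤ a → a ≤ b → b ≤ b' → N a b ≤ N a' b')
    (A η0 : ℝ) (hη0 : 0 < η0)
    (hal : ∀ ε : ℝ, 0 < ε → ∃ δ : ℝ, 0 < δ ∧ ∃ T0 : ℝ, 10 ≤ T0 ∧ ∀ T : ℝ, T0 ≤ T → ∀ H : ℝ,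
      T ^ η0 ≤ H → H ≤ T / 8 →
      volume {t : ℝ | t ∈ Set.Icc T (2 * T) ∧ ¬ Ok N G1 G2 (A - ε) t H} ≤
        ENNReal.ofReal (T ^ (1 - δ)))
    (η θ ε : ℝ) (hη : η0 < η) (hη1 : η < 1) (hθ : θ < η) (hε : 0 < ε) :
    ∃ δ : ℝ, 0 < δ ∧ δ < 1 ∧ AlongFamilies (1 - δ) 0 (fun _ x => 0 < x → ∀ u H : ℝ,
      |u - x| ≤ x ^ θ → x ^ η ≤ H → H ≤ x / 20 → Ok N G1 G2 (A - ε) u H) := by
  obtain ⟨C, hC, hN'⟩ := hN
  set μ : ℝ := ε / (32 * (K + |A| + ε)) with hμ
  have hKA : 0 < K + |A| + ε := by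
    have := abs_nonneg A
    linarith
  have hμ0 : 0 < μ := by positivity
  have hμK : μ * (32 * (K + |A| + ε)) = ε := by
    rw [hμ]
    field_simp
  have hμ1 : μ ≤ 1 / 32 := by
    rw [hμ, div_le_iff₀ (by positivity)]
    have := abs_nonneg A
    nlinarith
  set g : ℝ := 1 + μ / 4 with hg
  have hg1 : 1 < g := by
    rw [hg]
    linarith
  obtain ⟨δ', hδ', T0, hT0, hvol'⟩ := hal (ε / 2) (by positivity)
  set δ : ℝ := min δ' (1 / 2) with hδ
  have hδ0 : 0 < δ := lt_min hδ' (by norm_num)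
  have hδ1 : δ < 1 := lt_of_le_of_lt (min_le_right _ _) (by norm_num)
  set P : ℕ → Set ℝ := fun i => {t : ℝ | ¬ Ok N G1 G2 (A - ε / 2) t (g ^ i)} with hP
  obtain ⟨D, hD⟩ := count_grid P g hg1 δ η0 T0 hδ0 hδ1 hη0.le (by
    intro T hT i hi1 hi2
    refine (measure_mono ?_).trans ((hvol' T hT (g ^ i) hi1 hi2).trans (ENNReal.ofReal_le_ofReal ?_))
    · rintro t ⟨ht1, ht2⟩
      exact ⟨ht2, ht1⟩
    · exact Real.rpow_le_rpow_of_exponent_le (by linarith) (by linarith [min_le_left δ' (1 / 2)]))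
  obtain ⟨X0, hX0⟩ := eventually_atTop.1 (ev_facts C μ η θ η0 hμ0 (by linarith) hθ hη0.le hη hη1)
  set S : Set ℕ := Bad P g η0 ∪ {k : ℕ | (k : ℝ) ≤ |X0| + 1} with hS
  refine ⟨δ / 2, by positivity, by linarith, ?_⟩
  refine NW.along_families (fun _ => S) (fun k : ℕ => (k : ℝ)) (1 - δ / 2) 0 (by linarith) le_rfl
    one_pos (fun _ ε' hε' => ?_) _ ?_
  · -- the number of exceptions
    have hfin0 : {k : ℕ | (k : ℝ) ≤ |X0| + 1}.Finite := by
      refine (Set.finite_Iic ⌊|X0| + 1⌋₊).subset fun k hk => ?_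
      exact Nat.le_floor hk
    refine ⟨|D| + ({k : ℕ | (k : ℝ) ≤ |X0| + 1}.ncard : ℝ), fun X hX => ?_⟩
    have hsub : {k : ℕ | k ∈ S ∧ (k : ℝ) ≤ X} ⊆ {k : ℕ | k ∈ Bad P g η0 ∧ (k : ℝ) ≤ X} ∪
        {k : ℕ | (k : ℝ) ≤ |X0| + 1} := by
      rintro k ⟨hk | hk, hkX⟩
      · exact Or.inl ⟨hk, hkX⟩
      · exact Or.inr hk
    have hf := ((hD X hX).1.union hfin0)
    refine ⟨hf.subset hsub, ?_⟩
    have k1 := (Set.ncard_le_ncard hsub hf).trans (Set.ncard_union_le _ _)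
    have k2 : ({k : ℕ | k ∈ S ∧ (k : ℝ) ≤ X}.ncard : ℝ) ≤
        ({k : ℕ | k ∈ Bad P g η0 ∧ (k : ℝ) ≤ X}.ncard : ℝ) +
        ({k : ℕ | (k : ℝ) ≤ |X0| + 1}.ncard : ℝ) := by exact_mod_cast k1
    have k3 : 1 ≤ X ^ (1 - δ / 2 + ε') := Real.one_le_rpow hX (by linarith)
    have k4 : X ^ (1 - δ / 2) ≤ X ^ (1 - δ / 2 + ε') :=
      Real.rpow_le_rpow_of_exponent_le hX (by linarith)
    have k5 : D * X ^ (1 - δ / 2) ≤ |D| * X ^ (1 - δ / 2 + ε') := by
      have hXp : 0 ≤ X ^ (1 - δ / 2) := by positivity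
      calc D * X ^ (1 - δ / 2) ≤ |D| * X ^ (1 - δ / 2) :=
            mul_le_mul_of_nonneg_right (le_abs_self D) hXp
        _ ≤ _ := mul_le_mul_of_nonneg_left k4 (abs_nonneg D)
    have k6 : (0 : ℝ) ≤ ({k : ℕ | (k : ℝ) ≤ |X0| + 1}.ncard : ℝ) := Nat.cast_nonneg _
    have k7 := (hD X hX).2
    nlinarith
  · intro _ x hx hxpos u H hu hH hHx
    set k : ℕ := ⌈x⌉₊ with hk
    have hxk : x ≤ k := Nat.le_ceil x
    have hkx : (k : ℝ) < x + 1 := Nat.ceil_lt_add_one hxpos.le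
    have hkS : k ∉ S := by
      intro hcon
      have := hx k hcon
      rw [Real.rpow_zero, abs_of_nonneg (by linarith)] at this
      linarith
    have hkB : k ∉ Bad P g η0 := fun hcon => hkS (Or.inl hcon)
    have hxX : X0 ≤ x := by
      by_contra hcon
      push Not at hcon
      apply hkS
      right
      show (k : ℝ) ≤ |X0| + 1
      linarith [le_abs_self X0]
    obtain ⟨f1, f2, f3, f4, f5, f6, f7, f8⟩ := hX0 x hxX
    have hx0 : 0 < x := by linarith
    have hH4 : 4 ≤ H := f8.trans hH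
    -- the length of the base interval
    obtain ⟨i, hi1, hi2⟩ := exists_nat_pow_near (show (1 : ℝ) ≤ H by linarith) hg1
    have hgi : 0 < g ^ i := by positivity
    have hHi : H - g ^ i ≤ μ / 4 * H := by
      rw [pow_succ] at hi2
      have : H < g ^ i + g ^ i * (μ / 4) := by
        calc H < g ^ i * g := hi2
          _ = _ := by rw [hg]; ring
      nlinarith
    have hb1 : (k : ℝ) ^ η0 ≤ g ^ i := by
      have e1 : (k : ℝ) ^ η0 ≤ (x + 1) ^ η0 :=
        Real.rpow_le_rpow (Nat.cast_nonneg _) hkx.le hη0.le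
      have e2 : x ^ η / 2 ≤ g ^ i := by nlinarith
      linarith
    have hb2 : g ^ i ≤ (k : ℝ) / 16 := by
      have : H ≤ (k : ℝ) / 16 := by linarith
      exact hi1.trans this
    have hex : ¬ Set.Ico (k : ℝ) (k + 1) ⊆ P i := fun hcon => hkB ⟨i, hb1, hb2, hcon⟩
    obtain ⟨t, ⟨ht1, ht2⟩, htP⟩ := Set.not_subset.1 hex
    have hok : Ok N G1 G2 (A - ε / 2) t (g ^ i) := by
      by_contra hcon
      exact htP hcon
    have hxη : x ^ η ≤ H := hH
    have hux := abs_le.1 hu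
    have hd4 : x ^ θ + 2 ≤ μ / 4 * H := f4.trans (mul_le_mul_of_nonneg_left hH (by positivity))
    have hsmall : x ^ θ + 2 ≤ H / 4 := by nlinarith
    have htx1 : x ≤ t := hxk.trans ht1
    have htx2 : t < x + 2 := by linarith
    have hgi3 : 3 ≤ g ^ i := by nlinarith
    -- the hull
    set a : ℝ := min u t with ha
    set b : ℝ := max (u + H) (t + g ^ i) with hb
    have hau : a ≤ u := min_le_left _ _
    have hat : a ≤ t := min_le_right _ _
    have hub : u + H ≤ b := le_max_left _ _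
    have htb : t + g ^ i ≤ b := le_max_right _ _
    have hax : x / 2 ≤ a := by
      rw [ha]
      refine le_min ?_ ?_
      · linarith
      · linarith
    have hba : b - a ≤ H + (x ^ θ + 2) := by
      rw [ha, hb]
      rcases max_choice (u + H) (t + g ^ i) with e | e <;>
        rcases min_choice u t with e' | e' <;> rw [e, e'] <;> linarith
    have hux2 : u ≤ 2 * x := by linarith
    have hux1 : x / 2 ≤ u := by linarith
    have hx4 : 0 < x ^ θ := by positivity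
    have hμH : 0 ≤ μ * H := by positivity
    -- the differences
    have D1 : N a b - N t (t + g ^ i) ≤ μ * (H * Real.log x) := by
      refine diff_le (N := N) hC hN' hμ0 f1 f2 f3 hH hHx hat htb hax (by linarith) (by linarith)
        (by linarith) ?_
      linarith
    have D2 : N a b - N u (u + H) ≤ μ * (H * Real.log x) := by
      refine diff_le (N := N) hC hN' hμ0 f1 f2 f3 hH hHx hau hub hax hux2 (by linarith)
        (by linarith) ?_
      linarith
    have hlow := low_le hC hN' f1 f6 f7 f8 hH hHx hux1 hux2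
    have ha1 : 1 ≤ a := by linarith
    have D1' : 0 ≤ N a b - N t (t + g ^ i) := by
      have := hNm t (t + g ^ i) a b ha1 hat (by linarith) htb
      linarith
    have D2' : 0 ≤ N a b - N u (u + H) := by
      have := hNm u (u + H) a b ha1 hau (by linarith) hub
      linarith
    have g1 := h1.mono u (u + H) a b ha1 hau (by linarith) hub
    have g2 := h1.lip t (t + g ^ i) a b ha1 hat (by linarith) htb
    have g3 := h2.mono t (t + g ^ i) a b ha1 hat (by linarith) htb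
    have g4 := h2.lip u (u + H) a b ha1 hau (by linarith) hub
    unfold Ok at hok ⊢
    exact fin_ineq hε hK D1 D2 D1' D2' hlow hμK hok g1 g2 g3 g4

/-- positive numbers -/
theorem along_powers_pos {s θ : ℝ} {Q : ℕ → ℝ → Prop}
    (h : AlongFamilies s θ (fun j x => 0 < x → Q j x)) : AlongPowers s θ Q := by
  have h1 := NW.along_powers_of h
  refine ⟨fun κ hκ => ?_, fun a ha => ?_⟩
  · obtain ⟨E, hE, h2⟩ := h1.1 κ hκ
    refine ⟨E, hE, fun t ht htE j => ?_⟩
    obtain ⟨n₀, hn⟩ := h2 t ht htE j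
    exact ⟨n₀, fun n hn1 => hn n hn1 (by positivity)⟩
  · obtain ⟨E, hE, h2⟩ := h1.2 a ha
    refine ⟨E, hE, fun t ht htE j => ?_⟩
    obtain ⟨n₀, hn⟩ := h2 t ht htE j
    refine ⟨max n₀ 1, fun n hn1 => hn n ((le_max_left _ _).trans hn1) ?_⟩
    have h3 : 1 ≤ n := (le_max_right _ _).trans hn1
    have h4 : (0 : ℝ) < n := by exact_mod_cast h3
    exact Real.rpow_pos_of_pos h4 _

end Pool.Agent.X16.ZP
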