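import Pool.Agent.Y771.DJ.AA
import Pool.Agent.X16.ZP.B

/-!
# Zeros of L-functions in all short intervals near `t ^ κ_n` and `n ^ t`
-/

set_option autoImplicit false

open Complex Filter Topology Set MeasureTheory
open scoped BigOperators

namespace Pool.Agent.X16.ZP

open H370
open Pool.Agent.X16.NW (AlongFamilies AlongPowers)
open Pool.Agent.Y771.DJ (SJ)

/-- the number of zeros with multiplicity, as a real number -/
noncomputable def NR (F : ℂ → ℂ) (a b : ℝ) : ℝ := (NN F a b : ℝ)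

theorem cnt_nn {F : ℂ → ℂ} (hF : GoodL F) : Cnt (NR F) := by
  obtain ⟨C, hC, h⟩ := H965SI.nn_asymp_short hF
  exact ⟨C, hC, fun T hT H hH hHT => h T hT H hH hHT T (T + H) le_rfl (by linarith) (by linarith)
    le_rfl⟩

theorem nn_mono' {F : ℂ → ℂ} (hF : GoodL F) (a b a' b' : ℝ) (h : 1 ≤ a') (ha : a' ≤ a)
    (_ : a ≤ b) (hb : b ≤ b') : NR F a b ≤ NR F a' b' := by
  have := NN_mono hF h ha hb
  unfold NR
  exact_mod_cast this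

/-- a sum of weights over the zeros -/
lemma lip_sum {F : ℂ → ℂ} (hF : GoodL F) (w : ℂ → ℝ) (K : ℝ) (G : ℝ → ℝ → ℝ)
    (hG : ∀ a b : ℝ, 1 ≤ a → G a b = ∑ s ∈ Zf F a b, w s) (hw0 : ∀ s, 0 ≤ w s)
    (hw : ∀ s : ℂ, (1 : ℝ) ≤ mult F s → w s ≤ K * mult F s) : Lip (NR F) G K := by
  have hsub : ∀ {a b a' b' : ℝ}, 1 ≤ a' → a' ≤ a → b ≤ b' → Zf F a b ⊆ Zf F a' b' := by
    intro a b a' b' h ha hb s hs
    rw [mem_Zf hF (h.trans ha)] at hs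
    rw [mem_Zf hF h]
    exact zset_mono F ha hb hs
  constructor
  · intro a b a' b' h ha _ hb
    rw [hG a b (h.trans ha), hG a' b' h]
    exact Finset.sum_le_sum_of_subset_of_nonneg (hsub h ha hb) fun s _ _ => hw0 s
  · intro a b a' b' h ha _ hb
    classical
    have h' : 1 ≤ a := h.trans ha
    unfold NR
    rw [hG a b h', hG a' b' h, NN_eq hF h, NN_eq hF h']
    push_cast
    rw [← Finset.sum_sdiff (f := fun s => (mult F s : ℝ)) (hsub h ha hb),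
      ← Finset.sum_sdiff (hsub h ha hb), add_sub_cancel_right, Finset.mul_sum, add_comm]
    refine add_le_add le_rfl (Finset.sum_le_sum fun s hs => hw s ?_)
    have hs' := (mem_Zf hF h).mp (Finset.mem_sdiff.mp hs).1
    have hpos : 1 ≤ mult F s := Loc.mult_pos' hF (by linarith [hs'.2.2.1]) hs'.2.2.2.2
    exact_mod_cast hpos

/-- the simple zeros on the line -/
lemma lip_ns {F : ℂ → ℂ} (hF : GoodL F) : Lip (NR F) (fun a b => (Ns F a b : ℝ)) 2 := by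
  classical
  refine lip_sum hF (fun s => if s.re = 1 / 2 ∧ mult F s = 1 then 1 else 0) 2 _ ?_ ?_ ?_
  · intro a b h
    have e : {s : ℂ | s ∈ zset F a b ∧ s.re = 1 / 2 ∧ mult F s = 1} =
        (((Zf F a b).filter (fun s => s.re = 1 / 2 ∧ mult F s = 1) : Finset ℂ) : Set ℂ) := by
      ext s
      simp only [Set.mem_setOf_eq, Finset.coe_filter, mem_Zf hF h]
    show (Ns F a b : ℝ) = _
    unfold Ns
    rw [e, Set.ncard_coe_finset, Finset.card_filter]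
    push_cast
    rfl
  · intro s
    split_ifs <;> norm_num
  · intro s hs
    split_ifs <;> linarith

/-- the number of distinct zeros -/
lemma lip_nd (j : ℕ) {F : ℂ → ℂ} (hF : GoodL F) :
    Lip (NR F) (fun a b => (j : ℝ) * (j + 1) * (Nd F a b : ℝ))
      ((j : ℝ) * (j + 1) + ((j : ℝ) ^ 2 + 1) / 2 + 1) := by
  refine lip_sum hF (fun _ => (j : ℝ) * (j + 1)) _ _ ?_ ?_ ?_
  · intro a b h
    have e : zset F a b = ((Zf F a b : Finset ℂ) : Set ℂ) := by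
      ext s
      rw [Finset.mem_coe, mem_Zf hF h]
    unfold Nd
    rw [e, Set.ncard_coe_finset, Finset.sum_const, nsmul_eq_mul]
    have e2 : Zf F a b = Zf F a b := rfl
    ring
  · intro s
    positivity
  · intro s hs
    have h1 : (0 : ℝ) ≤ (j : ℝ) * (j + 1) := by positivity
    have h2 : (0 : ℝ) ≤ ((j : ℝ) ^ 2 + 1) / 2 + 1 := by positivity
    nlinarith

/-- the excess multiplicity -/
lemma lip_ex {F : ℂ → ℂ} (hF : GoodL F) : Lip (NR F) (fun a b => 2 * (W69DZ.EX F a b : ℝ)) 2 := by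
  refine lip_sum hF (fun s => 2 * ((if s.re = 1 / 2 then mult F s - 2 else mult F s - 1 : ℕ) : ℝ))
    2 _ ?_ ?_ ?_
  · intro a b h
    rw [W69DZ.EX_eq hF h, ← Finset.mul_sum]
    push_cast
    rfl
  · intro s
    positivity
  · intro s hs
    have h1 : (if s.re = 1 / 2 then mult F s - 2 else mult F s - 1 : ℕ) ≤ mult F s := by
      split_ifs <;> omega
    have h2 : ((if s.re = 1 / 2 then mult F s - 2 else mult F s - 1 : ℕ) : ℝ) ≤ mult F s := by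
      exact_mod_cast h1
    linarith

/-- the extra terms for distinct zeros -/
lemma lip_sj (j : ℕ) {F : ℂ → ℂ} (hF : GoodL F) :
    Lip (NR F) (fun a b => SJ j F a b) ((j : ℝ) * (j + 1) + ((j : ℝ) ^ 2 + 1) / 2 + 1) := by
  refine lip_sum hF (fun s => ((if s.re = 1 / 2 then mult F s - (j + 1) else mult F s - 1 : ℕ) : ℝ) +
      ((j : ℝ) ^ 2 + 1) / 2 * (if s.re = 1 / 2 then 0 else 1)) _ _ ?_ ?_ ?_
  · intro a b h
    exact Pool.Agent.Y771.DJ.SJ_eq hF h j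
  · intro s
    split_ifs <;> positivity
  · intro s hs
    have h1 : (if s.re = 1 / 2 then mult F s - (j + 1) else mult F s - 1 : ℕ) ≤ mult F s := by
      split_ifs <;> omega
    have h2 : ((if s.re = 1 / 2 then mult F s - (j + 1) else mult F s - 1 : ℕ) : ℝ) ≤ mult F s := by
      exact_mod_cast h1
    have h3 : ((j : ℝ) ^ 2 + 1) / 2 * (if s.re = 1 / 2 then 0 else 1) ≤
        ((j : ℝ) ^ 2 + 1) / 2 * mult F s := by
      apply mul_le_mul_of_nonneg_left _ (by positivity)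
      split_ifs <;> linarith
    have h4 : (0 : ℝ) ≤ (j : ℝ) * (j + 1) * mult F s := by positivity
    linarith

/-- a parameter below `(1 + η) / 2` with nearly the same constant -/
lemma param (η θ ε : ℝ) (hη0 : 0 < η) (hη1 : η < 1) (hθ : θ < η) (hε : 0 < ε) :
    ∃ η1 : ℝ, 0 < η1 ∧ θ < η1 ∧ η1 < η ∧ H295SI.cc ((1 + η1) / 2) < H295SI.cc ((1 + η) / 2) + ε := by
  have hc := H370.AS.cc_cont ((1 + η) / 2) (by linarith) (by linarith)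
  have hc2 : Tendsto (fun x : ℝ => H295SI.cc ((1 + x) / 2)) (𝓝 η) (𝓝 (H295SI.cc ((1 + η) / 2))) := by
    have h1 : Tendsto (fun x : ℝ => (1 + x) / 2) (𝓝 η) (𝓝 ((1 + η) / 2)) :=
      ((continuous_const.add continuous_id).div_const 2).tendsto η
    exact hc.tendsto.comp h1
  have e0 : ∀ᶠ x : ℝ in 𝓝[<] η, H295SI.cc ((1 + x) / 2) < H295SI.cc ((1 + η) / 2) + ε :=
    nhdsWithin_le_nhds (hc2.eventually (gt_mem_nhds (by linarith)))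
  have e1 : ∀ᶠ x : ℝ in 𝓝[<] η, 0 < x := nhdsWithin_le_nhds (lt_mem_nhds hη0)
  have e2 : ∀ᶠ x : ℝ in 𝓝[<] η, θ < x := nhdsWithin_le_nhds (lt_mem_nhds hθ)
  have e3 : ∀ᶠ x : ℝ in 𝓝[<] η, x < η := self_mem_nhdsWithin
  obtain ⟨x, h0, h1, h2, h3⟩ := (e0.and (e1.and (e2.and e3))).exists
  exact ⟨x, h1, h2, h3, h0⟩

/-- the inequality for the simple zeros on the line, in all short intervals near `x` -/
def SI (F : ℂ → ℂ) (η θ ε x : ℝ) : Prop := ∀ u H : ℝ, |u - x| ≤ x ^ θ → x ^ η ≤ H → H ≤ x / 20 →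
  (2 - H295SI.cc ((1 + η) / 2) - ε) * (NN F u (u + H) : ℝ) + 2 * (W69DZ.EX F u (u + H) : ℝ) ≤
    (Ns F u (u + H) : ℝ)

/-- the inequality for the distinct zeros, in all short intervals near `x` -/
def DI (F : ℂ → ℂ) (j : ℕ) (η θ ε x : ℝ) : Prop := ∀ u H : ℝ, |u - x| ≤ x ^ θ → x ^ η ≤ H →
  H ≤ x / 20 → (2 * j + 1 - H295SI.cc ((1 + η) / 2) - ε) * (NN F u (u + H) : ℝ) +
    SJ j F u (u + H) ≤ (j : ℝ) * (j + 1) * (Nd F u (u + H) : ℝ)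

theorem simple_fam {F : ℂ → ℂ} (hF : GoodL F) (hA : Pool.Agent.TH822.AA.Almost F) (η θ ε : ℝ)
    (hη0 : 0 < η) (hη1 : η < 1) (hθ : θ < η) (hε : 0 < ε) :
    ∃ δ : ℝ, 0 < δ ∧ δ < 1 ∧ AlongFamilies (1 - δ) 0 (fun _ x => 0 < x → SI F η θ ε x) := by
  obtain ⟨η1, h0, _, h2, h3⟩ := param η θ (ε / 2) hη0 hη1 hθ (by positivity)
  obtain ⟨δ, hδ, hδ1, h⟩ := along (N := NR F) (G1 := fun a b => 2 * (W69DZ.EX F a b : ℝ))
    (G2 := fun a b => (Ns F a b : ℝ)) (K := 2) (by norm_num) (cnt_nn hF) (lip_ex hF) (lip_ns hF)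
    (nn_mono' hF) (2 - H295SI.cc ((1 + η1) / 2)) η1 h0 (fun ε' hε' => by
      obtain ⟨δ, hδ, T0, hT0, h⟩ := hA η1 ((1 + η1) / 2) ε' h0 (by linarith) (by linarith)
        (by linarith) hε'
      refine ⟨δ, hδ, T0, hT0, fun T hT H hH1 hH2 => (measure_mono ?_).trans (h T hT H hH1 hH2)⟩
      rintro t ⟨ht1, ht2⟩
      refine ⟨ht1, fun hcon => ht2 ?_⟩
      exact hcon.1) η θ (ε / 2) h2 hη1 hθ (by positivity)
  refine ⟨δ, hδ, hδ1, fun f I τ hτ hf => ?_⟩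
  obtain ⟨E, hE, hE2⟩ := h f I τ hτ hf
  refine ⟨E, hE, fun t ht htE j => ?_⟩
  obtain ⟨n₀, hn⟩ := hE2 t ht htE j
  refine ⟨n₀, fun n hn1 hx u H hu hH1 hH2 => ?_⟩
  have h4 := hn n hn1 hx u H hu hH1 hH2
  unfold Ok at h4
  dsimp only [NR] at h4
  refine le_trans ?_ h4
  have h5 : (0 : ℝ) ≤ (NN F u (u + H) : ℝ) := Nat.cast_nonneg _
  have h6 : (2 - H295SI.cc ((1 + η) / 2) - ε) ≤ (2 - H295SI.cc ((1 + η1) / 2) - ε / 2) := by
    linarith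
  linarith [mul_le_mul_of_nonneg_right h6 h5]

theorem distinct_fam (j : ℕ) (hj : 1 ≤ j) {F : ℂ → ℂ} (hF : GoodL F)
    (hB : ∀ τ : ℝ, 0 < τ → τ ≤ 1 → Pool.Agent.TH822.DZ.BZr F τ) (η θ ε : ℝ)
    (hη0 : 0 < η) (hη1 : η < 1) (hθ : θ < η) (hε : 0 < ε) :
    ∃ δ : ℝ, 0 < δ ∧ δ < 1 ∧ AlongFamilies (1 - δ) 0 (fun _ x => 0 < x → DI F j η θ ε x) := by
  obtain ⟨η1, h0, _, h2, h3⟩ := param η θ (ε / 2) hη0 hη1 hθ (by positivity)
  obtain ⟨δ, hδ, hδ1, h⟩ := along (N := NR F) (G1 := fun a b => SJ j F a b)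
    (G2 := fun a b => (j : ℝ) * (j + 1) * (Nd F a b : ℝ))
    (K := (j : ℝ) * (j + 1) + ((j : ℝ) ^ 2 + 1) / 2 + 1) (by positivity) (cnt_nn hF)
    (lip_sj j hF) (lip_nd j hF)
    (nn_mono' hF) (2 * j + 1 - H295SI.cc ((1 + η1) / 2)) η1 h0 (fun ε' hε' => by
      obtain ⟨δ, hδ, T0, hT0, h⟩ := Pool.Agent.Y771.DJ.almost_j j hj hF hB η1 ((1 + η1) / 2) ε' h0
        (by linarith) (by linarith) (by linarith) hε'
      refine ⟨δ, hδ, T0, hT0, fun T hT H hH1 hH2 => (measure_mono ?_).trans (h T hT H hH1 hH2)⟩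
      rintro t ⟨ht1, ht2⟩
      exact ⟨ht1, fun hcon => ht2 hcon⟩) η θ (ε / 2) h2 hη1 hθ (by positivity)
  refine ⟨δ, hδ, hδ1, fun f I τ hτ hf => ?_⟩
  obtain ⟨E, hE, hE2⟩ := h f I τ hτ hf
  refine ⟨E, hE, fun t ht htE i => ?_⟩
  obtain ⟨n₀, hn⟩ := hE2 t ht htE i
  refine ⟨n₀, fun n hn1 hx u H hu hH1 hH2 => ?_⟩
  have h4 := hn n hn1 hx u H hu hH1 hH2
  unfold Ok at h4
  dsimp only [NR] at h4
  refine le_trans ?_ h4
  have h5 : (0 : ℝ) ≤ (NN F u (u + H) : ℝ) := Nat.cast_nonneg _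
  have h6 : (2 * j + 1 - H295SI.cc ((1 + η) / 2) - ε) ≤
      (2 * j + 1 - H295SI.cc ((1 + η1) / 2) - ε / 2) := by linarith
  linarith [mul_le_mul_of_nonneg_right h6 h5]

/-- exponents between rational ones -/
lemma near_mono {η θ η1 θ1 x u H : ℝ} (hx : 1 ≤ x) (hη : η1 ≤ η) (hθ : θ ≤ θ1)
    (hu : |u - x| ≤ x ^ θ) (hH : x ^ η ≤ H) : |u - x| ≤ x ^ θ1 ∧ x ^ η1 ≤ H :=
  ⟨hu.trans (Real.rpow_le_rpow_of_exponent_le hx hθ),
    (Real.rpow_le_rpow_of_exponent_le hx hη).trans hH⟩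

theorem along_mono {s θ : ℝ} {Q Q' : ℕ → ℝ → Prop} (h : ∀ j x, Q j x → Q' j x)
    (hQ : AlongPowers s θ Q) : AlongPowers s θ Q' := by
  refine ⟨fun κ hκ => ?_, fun a ha => ?_⟩
  · obtain ⟨E, hE, h2⟩ := hQ.1 κ hκ
    refine ⟨E, hE, fun t ht htE j => ?_⟩
    obtain ⟨n₀, hn⟩ := h2 t ht htE j
    exact ⟨n₀, fun n hn1 => h _ _ (hn n hn1)⟩
  · obtain ⟨E, hE, h2⟩ := hQ.2 a ha
    refine ⟨E, hE, fun t ht htE j => ?_⟩
    obtain ⟨n₀, hn⟩ := h2 t ht htE j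
    exact ⟨n₀, fun n hn1 => h _ _ (hn n hn1)⟩

/-- from rational to real parameters -/
lemma rat_param (η θ ε : ℝ) (hη0 : 0 < η) (hη1 : η < 1) (hθ : θ < η) (hε : 0 < ε) :
    ∃ a b e : ℚ, (0 : ℝ) < a ∧ (a : ℝ) ≤ η ∧ (b : ℝ) < a ∧ θ ≤ b ∧ (0 : ℝ) < e ∧
      H295SI.cc ((1 + (a : ℝ)) / 2) + e ≤ H295SI.cc ((1 + η) / 2) + ε := by
  -- left continuity
  have hc := H370.AS.cc_cont ((1 + η) / 2) (by linarith) (by linarith)
  have hc2 : Tendsto (fun x : ℝ => H295SI.cc ((1 + x) / 2)) (𝓝 η) (𝓝 (H295SI.cc ((1 + η) / 2))) := by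
    have h1 : Tendsto (fun x : ℝ => (1 + x) / 2) (𝓝 η) (𝓝 ((1 + η) / 2)) :=
      ((continuous_const.add continuous_id).div_const 2).tendsto η
    exact hc.tendsto.comp h1
  obtain ⟨r, hr, hr2⟩ := Metric.eventually_nhds_iff.1
    (hc2.eventually (gt_mem_nhds (show H295SI.cc ((1 + η) / 2) <
      H295SI.cc ((1 + η) / 2) + ε / 2 by linarith)))
  obtain ⟨a, ha1, ha2⟩ := exists_rat_btwn (show max (max 0 θ) (η - r) < η by
    rw [max_lt_iff, max_lt_iff]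
    exact ⟨⟨hη0, hθ⟩, by linarith⟩)
  rw [max_lt_iff, max_lt_iff] at ha1
  obtain ⟨b, hb1, hb2⟩ := exists_rat_btwn ha1.1.2
  obtain ⟨e, he1, he2⟩ := exists_rat_btwn (show (0 : ℝ) < ε / 2 by positivity)
  refine ⟨a, b, e, ha1.1.1, ha2.le, hb2, hb1.le, he1, ?_⟩
  have h3 := hr2 (y := (a : ℝ)) (by
    rw [Real.dist_eq, abs_lt]
    constructor <;> linarith [ha1.2])
  linarith

/-- `κ_n → ∞` -/
lemma kappa_nonneg {κ : ℕ → ℝ} (hκ : Tendsto (fun n : ℕ => κ n / Real.log n) atTop atTop) :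
    ∃ n₀ : ℕ, ∀ n : ℕ, n₀ ≤ n → 0 ≤ κ n := by
  have h1 := hκ.eventually (eventually_ge_atTop 0)
  obtain ⟨n₀, hn⟩ := eventually_atTop.1 (h1.and (eventually_ge_atTop 2))
  refine ⟨n₀, fun n hn1 => ?_⟩
  obtain ⟨h2, h3⟩ := hn n hn1
  have h4 : 0 < Real.log n := Real.log_pos (by exact_mod_cast (show 1 < n by omega))
  by_contra hcon
  push Not at hcon
  exact absurd h2 (not_le.2 (div_neg_of_neg_of_pos hcon h4))

/-- **Theorem** (simple zeros on the line). -/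
theorem simple_ae {ι : Type} [Countable ι] (F : ι → ℂ → ℂ) (hF : ∀ i, GoodL (F i))
    (hA : ∀ i, Pool.Agent.TH822.AA.Almost (F i)) (κ : ℕ → ℝ)
    (hκ : Tendsto (fun n : ℕ => κ n / Real.log n) atTop atTop) :
    ∀ᵐ t : ℝ, 1 < t → ∀ i : ι, ∀ η θ ε : ℝ, 0 < η → η < 1 → θ < η → 0 < ε →
      ∃ n₀ : ℕ, ∀ n : ℕ, n₀ ≤ n → SI (F i) η θ ε (t ^ κ n) := by
  have key : ∀ p : ι × ℚ × ℚ × ℚ, ∀ᵐ t : ℝ, 1 < t → (0 : ℝ) < p.2.1 → (p.2.1 : ℝ) < 1 →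
      (p.2.2.1 : ℝ) < p.2.1 → (0 : ℝ) < p.2.2.2 →
      ∃ n₀ : ℕ, ∀ n : ℕ, n₀ ≤ n → SI (F p.1) p.2.1 p.2.2.1 p.2.2.2 (t ^ κ n) := by
    rintro ⟨i, a, b, e⟩
    by_cases hp : (0 : ℝ) < a ∧ (a : ℝ) < 1 ∧ (b : ℝ) < a ∧ (0 : ℝ) < e
    · obtain ⟨δ, hδ, hδ1, h⟩ := simple_fam (hF i) (hA i) a b e hp.1 hp.2.1 hp.2.2.1 hp.2.2.2
      have h1 := NW.ae_powers_of (by linarith) (by linarith) (along_powers_pos h)
      filter_upwards [h1.1 κ hκ] with t ht ht1 _ _ _ _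
      exact ht ht1 0
    · filter_upwards with t _ h1 h2 h3 h4
      exact absurd ⟨h1, h2, h3, h4⟩ hp
  filter_upwards [ae_all_iff.2 key] with t ht ht1 i η θ ε hη0 hη1 hθ hε
  obtain ⟨a, b, e, ha0, haη, hba, hθb, he, hce⟩ := rat_param η θ ε hη0 hη1 hθ hε
  obtain ⟨n₀, hn⟩ := ht (i, a, b, e) ht1 ha0 (by dsimp only; linarith) hba he
  obtain ⟨n₁, hn1⟩ := kappa_nonneg hκ
  refine ⟨max n₀ n₁, fun n hn2 u H hu hH1 hH2 => ?_⟩
  have hx : 1 ≤ t ^ κ n := Real.one_le_rpow ht1.le (hn1 n ((le_max_right _ _).trans hn2))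
  obtain ⟨h1, h2⟩ := near_mono hx haη hθb hu hH1
  refine le_trans ?_ (hn n ((le_max_left _ _).trans hn2) u H h1 h2 hH2)
  have h5 : (0 : ℝ) ≤ (NN (F i) u (u + H) : ℝ) := Nat.cast_nonneg _
  have h6 : (2 - H295SI.cc ((1 + η) / 2) - ε) ≤ (2 - H295SI.cc ((1 + (a : ℝ)) / 2) - e) := by
    linarith
  have := mul_le_mul_of_nonneg_right h6 h5
  dsimp only
  linarith

/-- **Theorem** (distinct zeros). -/
theorem distinct_ae {ι : Type} [Countable ι] (F : ι → ℂ → ℂ) (hF : ∀ i, GoodL (F i))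
    (hB : ∀ i, ∀ τ : ℝ, 0 < τ → τ ≤ 1 → Pool.Agent.TH822.DZ.BZr (F i) τ) (κ : ℕ → ℝ)
    (hκ : Tendsto (fun n : ℕ => κ n / Real.log n) atTop atTop) :
    ∀ᵐ t : ℝ, 1 < t → ∀ i : ι, ∀ j : ℕ, ∀ η θ ε : ℝ, 1 ≤ j → 0 < η → η < 1 → θ < η → 0 < ε →
      ∃ n₀ : ℕ, ∀ n : ℕ, n₀ ≤ n → DI (F i) j η θ ε (t ^ κ n) := by
  have key : ∀ p : (ι × ℕ) × ℚ × ℚ × ℚ, ∀ᵐ t : ℝ, 1 < t → 1 ≤ p.1.2 → (0 : ℝ) < p.2.1 →
      (p.2.1 : ℝ) < 1 → (p.2.2.1 : ℝ) < p.2.1 → (0 : ℝ) < p.2.2.2 →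
      ∃ n₀ : ℕ, ∀ n : ℕ, n₀ ≤ n → DI (F p.1.1) p.1.2 p.2.1 p.2.2.1 p.2.2.2 (t ^ κ n) := by
    rintro ⟨⟨i, j⟩, a, b, e⟩
    by_cases hp : 1 ≤ j ∧ (0 : ℝ) < a ∧ (a : ℝ) < 1 ∧ (b : ℝ) < a ∧ (0 : ℝ) < e
    · obtain ⟨hj, hp1, hp2, hp3, hp4⟩ := hp
      obtain ⟨δ, hδ, hδ1, h⟩ := distinct_fam j hj (hF i) (hB i) a b e hp1 hp2 hp3 hp4
      have h1 := NW.ae_powers_of (by linarith) (by linarith) (along_powers_pos h)
      filter_upwards [h1.1 κ hκ] with t ht ht1 _ _ _ _ _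
      exact ht ht1 0
    · filter_upwards with t _ h0 h1 h2 h3 h4
      exact absurd ⟨h0, h1, h2, h3, h4⟩ hp
  filter_upwards [ae_all_iff.2 key] with t ht ht1 i j η θ ε hj hη0 hη1 hθ hε
  obtain ⟨a, b, e, ha0, haη, hba, hθb, he, hce⟩ := rat_param η θ ε hη0 hη1 hθ hε
  obtain ⟨n₀, hn⟩ := ht ((i, j), a, b, e) ht1 hj ha0 (by dsimp only; linarith) hba he
  obtain ⟨n₁, hn1⟩ := kappa_nonneg hκ
  refine ⟨max n₀ n₁, fun n hn2 u H hu hH1 hH2 => ?_⟩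
  have hx : 1 ≤ t ^ κ n := Real.one_le_rpow ht1.le (hn1 n ((le_max_right _ _).trans hn2))
  obtain ⟨h1, h2⟩ := near_mono hx haη hθb hu hH1
  refine le_trans ?_ (hn n ((le_max_left _ _).trans hn2) u H h1 h2 hH2)
  have h5 : (0 : ℝ) ≤ (NN (F i) u (u + H) : ℝ) := Nat.cast_nonneg _
  have h6 : (2 * j + 1 - H295SI.cc ((1 + η) / 2) - ε) ≤
      (2 * j + 1 - H295SI.cc ((1 + (a : ℝ)) / 2) - e) := by linarith
  have := mul_le_mul_of_nonneg_right h6 h5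
  dsimp only
  linarith

end Pool.Agent.X16.ZP
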