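import Pool.Agent.X16.NW.F

/-!
# Sets of real numbers of small measure in dyadic blocks, and the unit intervals contained in them
-/

set_option autoImplicit false

open Finset Filter Topology MeasureTheory

namespace Pool.Agent.X16.ZP

open scoped ENNReal NNReal

/-- disjoint unit intervals in a set of small measure -/
theorem card_le_vol (S : Finset ℕ) (B : Set ℝ) (m : ℝ) (hm : 0 ≤ m)
    (hB : volume B ≤ ENNReal.ofReal m) (hS : ∀ k ∈ S, Set.Ico (k : ℝ) (k + 1) ⊆ B) :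
    (S.card : ℝ) ≤ m := by
  have h1 : volume (⋃ k ∈ S, Set.Ico (k : ℝ) (k + 1)) =
      ∑ k ∈ S, volume (Set.Ico (k : ℝ) (k + 1)) := by
    apply measure_biUnion_finset
    · intro a _ b _ hab
      rw [Function.onFun, Set.disjoint_left]
      rintro x ⟨hx1, hx2⟩ ⟨hx3, hx4⟩
      apply hab
      have h1 : (a : ℝ) < b + 1 := lt_of_le_of_lt hx1 hx4
      have h2 : (b : ℝ) < a + 1 := lt_of_le_of_lt hx3 hx2
      have h3 : a < b + 1 := by exact_mod_cast h1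
      have h4 : b < a + 1 := by exact_mod_cast h2
      omega
    · intro k _
      exact measurableSet_Ico
  have h2 : ((S.card : ℕ) : ℝ≥0∞) ≤ ENNReal.ofReal m := by
    calc ((S.card : ℕ) : ℝ≥0∞) = volume (⋃ k ∈ S, Set.Ico (k : ℝ) (k + 1)) := by
          rw [h1]
          simp [Real.volume_Ico]
      _ ≤ volume B := measure_mono (Set.iUnion₂_subset hS)
      _ ≤ _ := hB
  have h3 : ENNReal.ofReal ((S.card : ℕ) : ℝ) ≤ ENNReal.ofReal m := by
    rwa [ENNReal.ofReal_natCast]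
  exact (ENNReal.ofReal_le_ofReal_iff hm).1 h3

/-- from dyadic blocks to the counting function -/
theorem count_dyadic (P : Set ℕ) (s C : ℝ) (hs : 0 < s)
    (h : ∀ m : ℕ, ({k : ℕ | k ∈ P ∧ 2 ^ m ≤ k ∧ k < 2 ^ (m + 1)}.ncard : ℝ) ≤ C * ((2 : ℝ) ^ m) ^ s) :
    ∃ D : ℝ, ∀ X : ℝ, 1 ≤ X → {k : ℕ | k ∈ P ∧ (k : ℝ) ≤ X}.Finite ∧
      ({k : ℕ | k ∈ P ∧ (k : ℝ) ≤ X}.ncard : ℝ) ≤ D * X ^ s := by
  have h2s : 1 < (2 : ℝ) ^ s := Real.one_lt_rpow (by norm_num) hs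
  set D : ℝ := max 1 (|C| / ((2 : ℝ) ^ s - 1)) with hD
  have hD1 : 1 ≤ D := le_max_left _ _
  have hDC : |C| ≤ D * ((2 : ℝ) ^ s - 1) := by
    have h1 : |C| / ((2 : ℝ) ^ s - 1) ≤ D := le_max_right _ _
    rwa [div_le_iff₀ (by linarith)] at h1
  have hfin : ∀ m : ℕ, {k : ℕ | k ∈ P ∧ k < 2 ^ m}.Finite := fun m =>
    (Set.finite_Iio (2 ^ m)).subset fun k hk => hk.2
  have key : ∀ m : ℕ, ({k : ℕ | k ∈ P ∧ k < 2 ^ m}.ncard : ℝ) ≤ D * ((2 : ℝ) ^ m) ^ s := by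
    intro m
    induction m with
    | zero =>
      have h1 : {k : ℕ | k ∈ P ∧ k < 2 ^ 0} ⊆ ({0} : Set ℕ) := by
        rintro k ⟨_, hk⟩
        rw [Set.mem_singleton_iff]
        simpa using hk
      have h2 := Set.ncard_le_ncard h1 (Set.finite_singleton 0)
      rw [Set.ncard_singleton] at h2
      have h3 : ({k : ℕ | k ∈ P ∧ k < 2 ^ 0}.ncard : ℝ) ≤ 1 := by exact_mod_cast h2
      simpa using h3.trans hD1
    | succ m ih =>
      have h1 : {k : ℕ | k ∈ P ∧ k < 2 ^ (m + 1)} ⊆ {k : ℕ | k ∈ P ∧ k < 2 ^ m} ∪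
          {k : ℕ | k ∈ P ∧ 2 ^ m ≤ k ∧ k < 2 ^ (m + 1)} := by
        rintro k ⟨hk, hk2⟩
        rcases lt_or_ge k (2 ^ m) with h3 | h3
        · exact Or.inl ⟨hk, h3⟩
        · exact Or.inr ⟨hk, h3, hk2⟩
      have h2 := (Set.ncard_le_ncard h1 ((hfin m).union
        ((hfin (m + 1)).subset fun k hk => ⟨hk.1, hk.2.2⟩))).trans (Set.ncard_union_le _ _)
      have h3 : ({k : ℕ | k ∈ P ∧ k < 2 ^ (m + 1)}.ncard : ℝ) ≤
          ({k : ℕ | k ∈ P ∧ k < 2 ^ m}.ncard : ℝ) +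
          ({k : ℕ | k ∈ P ∧ 2 ^ m ≤ k ∧ k < 2 ^ (m + 1)}.ncard : ℝ) := by exact_mod_cast h2
      have hpos : 0 ≤ ((2 : ℝ) ^ m) ^ s := by positivity
      have h4 : C * ((2 : ℝ) ^ m) ^ s ≤ |C| * ((2 : ℝ) ^ m) ^ s :=
        mul_le_mul_of_nonneg_right (le_abs_self C) hpos
      have h5 : ((2 : ℝ) ^ (m + 1)) ^ s = ((2 : ℝ) ^ m) ^ s * (2 : ℝ) ^ s := by
        rw [pow_succ, Real.mul_rpow (by positivity) (by norm_num)]
      rw [h5]
      nlinarith [h m, mul_le_mul_of_nonneg_right hDC hpos]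
  refine ⟨D * (2 : ℝ) ^ s, fun X hX => ?_⟩
  obtain ⟨n, hn1, hn2⟩ := exists_nat_pow_near hX (by norm_num : (1 : ℝ) < 2)
  have hsub : {k : ℕ | k ∈ P ∧ (k : ℝ) ≤ X} ⊆ {k : ℕ | k ∈ P ∧ k < 2 ^ (n + 1)} := by
    rintro k ⟨hk, hkX⟩
    refine ⟨hk, ?_⟩
    have h1 : (k : ℝ) < 2 ^ (n + 1) := lt_of_le_of_lt hkX hn2
    exact_mod_cast h1
  refine ⟨(hfin _).subset hsub, ?_⟩
  have h1 : ({k : ℕ | k ∈ P ∧ (k : ℝ) ≤ X}.ncard : ℝ) ≤
      ({k : ℕ | k ∈ P ∧ k < 2 ^ (n + 1)}.ncard : ℝ) := by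
    exact_mod_cast Set.ncard_le_ncard hsub (hfin _)
  refine (h1.trans (key _)).trans ?_
  have h2 : (2 : ℝ) ^ (n + 1) ≤ 2 * X := by
    rw [pow_succ]
    linarith
  calc D * ((2 : ℝ) ^ (n + 1)) ^ s ≤ D * (2 * X) ^ s :=
        mul_le_mul_of_nonneg_left (Real.rpow_le_rpow (by positivity) h2 hs.le) (by linarith)
    _ = D * (2 : ℝ) ^ s * X ^ s := by
        rw [Real.mul_rpow (by norm_num) (by linarith)]
        ring

/-- the natural numbers `k` such that for some `i` with `k ^ η ≤ g ^ i ≤ k / 16` the interval `[k, k + 1)`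
is contained in `P i` -/
def Bad (P : ℕ → Set ℝ) (g η : ℝ) : Set ℕ :=
  {k : ℕ | ∃ i : ℕ, (k : ℝ) ^ η ≤ g ^ i ∧ g ^ i ≤ k / 16 ∧ Set.Ico (k : ℝ) (k + 1) ⊆ P i}

open Classical in
theorem count_grid (P : ℕ → Set ℝ) (g : ℝ) (hg : 1 < g) (δ η T0 : ℝ) (hδ : 0 < δ) (hδ1 : δ < 1)
    (hη : 0 ≤ η) (h : ∀ T : ℝ, T0 ≤ T → ∀ i : ℕ, T ^ η ≤ g ^ i → g ^ i ≤ T / 8 →
      volume (P i ∩ Set.Icc T (2 * T)) ≤ ENNReal.ofReal (T ^ (1 - δ))) :
    ∃ D : ℝ, ∀ X : ℝ, 1 ≤ X → {k : ℕ | k ∈ Bad P g η ∧ (k : ℝ) ≤ X}.Finite ∧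
      ({k : ℕ | k ∈ Bad P g η ∧ (k : ℝ) ≤ X}.ncard : ℝ) ≤ D * X ^ (1 - δ / 2) := by
  have hlg : 0 < Real.log g := Real.log_pos hg
  have hl2 : 0 < Real.log 2 := Real.log_pos (by norm_num)
  set L : ℝ := Real.log 2 / Real.log g with hL
  have hL0 : 0 < L := by positivity
  set C : ℝ := |T0| + L * (2 / (δ * Real.log 2)) + 2 with hC
  have hC0 : 0 < C := by
    rw [hC]
    have := abs_nonneg T0
    positivity
  refine count_dyadic _ _ C (by linarith) fun m => ?_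
  set T : ℝ := (2 : ℝ) ^ m with hT
  have hT1 : 1 ≤ T := one_le_pow₀ (by norm_num)
  have hT0 : 0 < T := by linarith
  set B : Finset ℕ := (Finset.Ico (2 ^ m) (2 ^ (m + 1))).filter (fun k => k ∈ Bad P g η) with hB
  have hBe : {k : ℕ | k ∈ Bad P g η ∧ 2 ^ m ≤ k ∧ k < 2 ^ (m + 1)} = (B : Set ℕ) := by
    ext k
    simp only [Set.mem_setOf_eq, hB, coe_filter, Finset.mem_Ico]
    tauto
  rw [hBe, Set.ncard_coe_finset]
  have hTs : 1 ≤ T ^ (1 - δ / 2) := Real.one_le_rpow hT1 (by linarith)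
  rcases lt_or_ge T T0 with hTT | hTT
  · have h1 : B.card ≤ 2 ^ m := by
      refine (Finset.card_filter_le _ _).trans ?_
      rw [Nat.card_Ico, pow_succ]
      omega
    have h2 : (B.card : ℝ) ≤ T := by
      rw [hT]
      exact_mod_cast h1
    have h3 : T ≤ C := by
      have := le_abs_self T0
      have h4 : 0 < L * (2 / (δ * Real.log 2)) := by positivity
      rw [hC]
      linarith
    nlinarith
  · set I : ℕ := ⌈(m : ℝ) * L⌉₊ with hI
    have hsub : B ⊆ (Finset.range (I + 1)).biUnion (fun i =>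
        if T ^ η ≤ g ^ i ∧ g ^ i ≤ T / 8 then
          (Finset.Ico (2 ^ m) (2 ^ (m + 1))).filter
            (fun k : ℕ => Set.Ico (k : ℝ) (k + 1) ⊆ P i ∩ Set.Icc T (2 * T)) else ∅) := by
      intro k hk
      rw [hB, mem_filter, Finset.mem_Ico] at hk
      obtain ⟨⟨hk1, hk2⟩, i, hi1, hi2, hi3⟩ := hk
      have hkT : T ≤ k := by
        rw [hT]
        exact_mod_cast hk1
      have hkT2 : (k : ℝ) + 1 ≤ 2 * T := by
        have : k + 1 ≤ 2 ^ (m + 1) := hk2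
        have h1 : ((k + 1 : ℕ) : ℝ) ≤ ((2 ^ (m + 1) : ℕ) : ℝ) := by exact_mod_cast this
        rw [hT]
        push_cast at h1
        rw [pow_succ] at h1
        linarith
      have hi4 : T ^ η ≤ g ^ i := (Real.rpow_le_rpow hT0.le hkT hη).trans hi1
      have hi5 : g ^ i ≤ T / 8 := hi2.trans (by linarith)
      have hi6 : i < I + 1 := by
        have h1 : (i : ℝ) * Real.log g ≤ m * Real.log 2 := by
          have h2 : Real.log (g ^ i) ≤ Real.log T :=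
            Real.log_le_log (by positivity) (hi5.trans (by linarith))
          rwa [Real.log_pow, hT, Real.log_pow] at h2
        have h2 : (i : ℝ) ≤ m * L := by
          rw [hL, mul_div_assoc', le_div_iff₀ hlg]
          exact h1
        have h3 : (i : ℝ) ≤ I := h2.trans (Nat.le_ceil _)
        have h4 : i ≤ I := by exact_mod_cast h3
        omega
      rw [mem_biUnion]
      refine ⟨i, Finset.mem_range.2 hi6, ?_⟩
      rw [if_pos ⟨hi4, hi5⟩, mem_filter, Finset.mem_Ico]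
      refine ⟨⟨hk1, hk2⟩, fun x hx => ⟨hi3 hx, ?_, ?_⟩⟩
      · exact hkT.trans hx.1
      · exact hx.2.le.trans hkT2
    have h1 : (B.card : ℝ) ≤ ∑ i ∈ Finset.range (I + 1), T ^ (1 - δ) := by
      refine le_trans (Nat.cast_le.2 ((Finset.card_le_card hsub).trans card_biUnion_le)) ?_
      push_cast
      refine Finset.sum_le_sum fun i _ => ?_
      split_ifs with hi
      · refine card_le_vol _ _ _ (by positivity) (h T hTT i hi.1 hi.2) fun k hk => ?_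
        rw [mem_filter] at hk
        exact hk.2
      · simp only [card_empty, Nat.cast_zero]
        positivity
    rw [Finset.sum_const, Finset.card_range, nsmul_eq_mul] at h1
    refine h1.trans ?_
    have h2 : ((I + 1 : ℕ) : ℝ) ≤ m * L + 2 := by
      have : (I : ℝ) < m * L + 1 := Nat.ceil_lt_add_one (by positivity)
      push_cast
      linarith
    have h3 : (m : ℝ) ≤ 2 / (δ * Real.log 2) * T ^ (δ / 2) := by
      have e1 : T ^ (δ / 2) = Real.exp (m * Real.log 2 * (δ / 2)) := by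
        rw [hT, ← Real.rpow_natCast, ← Real.rpow_mul (by norm_num), Real.rpow_def_of_pos (by norm_num)]
        congr 1
        ring
      have e2 : m * Real.log 2 * (δ / 2) ≤ T ^ (δ / 2) := by
        rw [e1]
        linarith [Real.add_one_le_exp (m * Real.log 2 * (δ / 2))]
      calc (m : ℝ) = 2 / (δ * Real.log 2) * (m * Real.log 2 * (δ / 2)) := by
            field_simp
        _ ≤ _ := mul_le_mul_of_nonneg_left e2 (by positivity)
    have h4 : 1 ≤ T ^ (δ / 2) := Real.one_le_rpow hT1 (by positivity)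
    have h5 : T ^ (1 - δ / 2) = T ^ (δ / 2) * T ^ (1 - δ) := by
      rw [← Real.rpow_add hT0]
      congr 1
      ring
    rw [h5]
    have h6 : ((I + 1 : ℕ) : ℝ) ≤ C * T ^ (δ / 2) := by
      have h7 : (m : ℝ) * L ≤ 2 / (δ * Real.log 2) * T ^ (δ / 2) * L :=
        mul_le_mul_of_nonneg_right h3 hL0.le
      have h8 := abs_nonneg T0
      rw [hC]
      nlinarith
    calc ((I + 1 : ℕ) : ℝ) * T ^ (1 - δ) ≤ C * T ^ (δ / 2) * T ^ (1 - δ) :=
          mul_le_mul_of_nonneg_right h6 (by positivity)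
      _ = C * (T ^ (δ / 2) * T ^ (1 - δ)) := by ring

end Pool.Agent.X16.ZP
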